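import Pool.Agent.P.MP_339e98_lc.Defs

/-! Elementary facts on MTL-algebras, soundness for chains, and the key inequality. -/

namespace Pool.Agent.P.MP_339e98_lc

universe u

open MTLAlgebra

section
variable {A : Type u} [MTLAlgebra A]

theorem le_one' (x : A) : x ≤ 1 := by rw [one_eq_top]; exact le_top

theorem imp_mul_le (x y : A) : imp x y * x ≤ y := (residuation _ _ _).2 le_rfl

theorem mul_le_mul_r {x y : A} (h : x ≤ y) (z : A) : x * z ≤ y * z :=
  (residuation _ _ _).2 (h.trans ((residuation _ _ _).1 le_rfl))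

theorem mul_le_mul_l {x y : A} (h : x ≤ y) (z : A) : z * x ≤ z * y := by
  rw [mul_comm z x, mul_comm z y]; exact mul_le_mul_r h z

theorem mul_le_mul2 {x y z w : A} (h : x ≤ y) (k : z ≤ w) : x * z ≤ y * w :=
  (mul_le_mul_r h z).trans (mul_le_mul_l k y)

theorem mul_le_left' (x y : A) : x * y ≤ x := by
  simpa using mul_le_mul_l (le_one' y) x

theorem mul_le_right' (x y : A) : x * y ≤ y := by
  rw [mul_comm]; exact mul_le_left' y x

theorem imp_eq_one {x y : A} : imp x y = 1 ↔ x ≤ y := by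
  constructor
  · intro h
    have := imp_mul_le x y
    rwa [h, one_mul] at this
  · intro h
    exact le_antisymm (le_one' _) ((residuation _ _ _).1 (by simpa using h))

theorem pow_le_pow' {x y : A} (h : x ≤ y) : ∀ n : ℕ, x ^ n ≤ y ^ n
  | 0 => by simp
  | n + 1 => by rw [pow_succ, pow_succ]; exact mul_le_mul2 (pow_le_pow' h n) h

theorem imp_anti {x y : A} (h : x ≤ y) (z : A) : imp y z ≤ imp x z :=
  (residuation _ _ _).1 ((mul_le_mul_l h _).trans (imp_mul_le y z))

theorem mul_bot' (x : A) : x * ⊥ = ⊥ := le_bot_iff.1 (mul_le_right' _ _)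

theorem sound {L : Set Form} (hA : IsChainOf L A) {φ : Form} (h : Provable L φ) : Taut A φ := by
  intro v
  induction h with
  | ax h => exact hA.2 _ h v
  | a1 φ ψ χ =>
    simp only [Form.eval, imp_eq_one, ← residuation]
    set x := φ.eval v; set y := ψ.eval v; set z := χ.eval v
    calc imp x y * imp y z * x = imp y z * (imp x y * x) := by ac_rfl
      _ ≤ imp y z * y := mul_le_mul_l (imp_mul_le _ _) _
      _ ≤ z := imp_mul_le _ _
  | a2 φ ψ => simp only [Form.eval, imp_eq_one]; exact mul_le_left' _ _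
  | a3 φ ψ => simp only [Form.eval, imp_eq_one]; exact (mul_comm _ _).le
  | a4 φ ψ => simp only [Form.eval, imp_eq_one]; exact inf_le_left
  | a5 φ ψ => simp only [Form.eval, imp_eq_one]; exact (inf_comm _ _).le
  | a6 φ ψ =>
    simp only [Form.eval, imp_eq_one]
    exact le_inf (mul_le_left' _ _) (by rw [mul_comm]; exact imp_mul_le _ _)
  | a7 φ ψ χ =>
    simp only [Form.eval, imp_eq_one, ← residuation]
    rw [← mul_assoc]
    exact (mul_le_mul_r (imp_mul_le _ _) _).trans (imp_mul_le _ _)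
  | a8 φ ψ χ =>
    simp only [Form.eval, imp_eq_one, ← residuation]
    rw [mul_assoc]
    exact imp_mul_le _ _
  | a9 φ ψ χ =>
    simp only [Form.eval, imp_eq_one, ← residuation]
    rcases hA.1 (φ.eval v) (ψ.eval v) with h | h
    · rw [imp_eq_one.2 h]
      refine (mul_le_left' _ _).trans ?_
      simpa using imp_mul_le (1 : A) (χ.eval v)
    · rw [imp_eq_one.2 h]
      refine (mul_le_right' _ _).trans ?_
      simpa using imp_mul_le (1 : A) (χ.eval v)
  | a10 φ => simp only [Form.eval, imp_eq_one]; exact bot_le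
  | mp _ _ ih1 ih2 =>
    simp only [Form.eval, imp_eq_one] at ih1
    rw [ih2] at ih1
    exact le_antisymm (le_one' _) ih1

/-- The two configurations cannot both hold, even approximately, in one chain. -/
theorem key (htot : ∀ x y : A, x ≤ y ∨ y ≤ x) (d b e : A)
    (b2 : d ≤ imp (b ^ 4) ⊥) (b4 : d ≤ imp (imp (b ^ 2) ⊥) (b ^ 2))
    (e1 : d ≤ imp (imp e ⊥) (e ^ 3)) (e2 : d ≤ imp (e ^ 4) ⊥)
    (e3 : d ≤ imp (imp (imp e ⊥) ⊥) e)
    (e4 : d ≤ imp (imp (imp (e ^ 2) ⊥) (e ^ 2)) e) : d ^ 57 = ⊥ := by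
  rw [← residuation] at b2 b4 e1 e2 e3 e4
  have fin : d ^ 14 ≤ e → d ^ 57 = ⊥ := by
    intro h
    have h4 := pow_le_pow' h 4
    refine le_bot_iff.1 (le_trans ?_ e2)
    calc d ^ 57 = d * (d ^ 14) ^ 4 := by rw [← pow_mul, ← pow_succ']
      _ ≤ d * e ^ 4 := mul_le_mul_l h4 d
  apply fin
  have fin2 : d ^ 13 * imp (e ^ 2) ⊥ ≤ e ^ 2 → d ^ 14 ≤ e := by
    intro h
    rw [residuation] at h
    refine le_trans ?_ e4
    rw [pow_succ']
    exact mul_le_mul_l h d
  apply fin2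
  rcases htot b e with h | h
  · have h2 := pow_le_pow' h 2
    calc d ^ 13 * imp (e ^ 2) ⊥ = d ^ 12 * (d * imp (e ^ 2) ⊥) := by
          rw [← mul_assoc, ← pow_succ]
      _ ≤ d * imp (e ^ 2) ⊥ := mul_le_right' _ _
      _ ≤ d * imp (b ^ 2) ⊥ := mul_le_mul_l (imp_anti h2 _) d
      _ ≤ b ^ 2 := b4
      _ ≤ e ^ 2 := h2
  · have s1 : d ^ 2 * b ≤ imp (imp e ⊥) ⊥ := by
      rw [← residuation]
      refine le_trans ?_ b2
      calc d ^ 2 * b * imp e ⊥ = d * (b * (d * imp e ⊥)) := by rw [pow_two]; ac_rfl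
        _ ≤ d * (b * e ^ 3) := mul_le_mul_l (mul_le_mul_l e1 b) d
        _ ≤ d * (b * b ^ 3) := mul_le_mul_l (mul_le_mul_l (pow_le_pow' h 3) b) d
        _ = d * b ^ 4 := by rw [← pow_succ']
    have s2 : d ^ 3 * b ≤ e := by
      refine le_trans ?_ e3
      calc d ^ 3 * b = d * (d ^ 2 * b) := by rw [← mul_assoc, ← pow_succ']
        _ ≤ _ := mul_le_mul_l s1 d
    have s3 : d ^ 6 * b ^ 2 ≤ e ^ 2 := by
      have := pow_le_pow' s2 2
      rwa [mul_pow, ← pow_mul] at this
    have s4 : d ^ 6 * imp (e ^ 2) ⊥ ≤ imp (b ^ 2) ⊥ := by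
      rw [← residuation]
      calc d ^ 6 * imp (e ^ 2) ⊥ * b ^ 2 = imp (e ^ 2) ⊥ * (d ^ 6 * b ^ 2) := by ac_rfl
        _ ≤ imp (e ^ 2) ⊥ * e ^ 2 := mul_le_mul_l s3 _
        _ ≤ ⊥ := imp_mul_le _ _
    have s5 : d * (d ^ 6 * imp (e ^ 2) ⊥) ≤ b ^ 2 := (mul_le_mul_l s4 d).trans b4
    calc d ^ 13 * imp (e ^ 2) ⊥ = d ^ 6 * (d * (d ^ 6 * imp (e ^ 2) ⊥)) := by
          rw [← mul_assoc, ← mul_assoc, ← pow_succ, ← pow_add]
      _ ≤ d ^ 6 * b ^ 2 := mul_le_mul_l s5 _
      _ ≤ e ^ 2 := s3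

end

/-- Build an MTL-algebra on a linear order. -/
@[reducible] def ofLinear (A : Type u) [LinearOrder A] [BoundedOrder A] [CommMonoid A]
    (im : A → A → A) (hres : ∀ x y z : A, x * y ≤ z ↔ x ≤ im y z) (hone : (1 : A) = ⊤) :
    MTLAlgebra A where
  imp := im
  residuation := hres
  one_eq_top := hone
  prelinear := by
    intro x y
    have h1 : ∀ a b : A, a ≤ b → im a b = 1 := by
      intro a b h
      refine le_antisymm (by rw [hone]; exact le_top) ((hres _ _ _).1 (by simpa using h))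
    rcases le_total x y with h | h
    · rw [h1 x y h, hone]; exact top_sup_eq _
    · rw [h1 y x h, hone]; exact sup_top_eq _

end Pool.Agent.P.MP_339e98_lc
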