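import Mathlib

/-!
Definitions for single chain completeness of MTL, IMTL and PiMTL:
formulas, the Hilbert calculus of Esteva and Godo, MTL-algebras, L-chains, SCC.
-/

namespace Pool.Agent.P.MP_339e98_lc

universe u

/-- Propositional formulas of MTL over countably many variables.  The primitive connectives are
those of Esteva and Godo: the constant 0, strong conjunction, implication, weak conjunction
(negation, the constant 1 and disjunction are abbreviations in this language). -/
inductive Form : Type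
  | var : ℕ → Form
  | bot : Form
  | mul : Form → Form → Form
  | arr : Form → Form → Form
  | inf : Form → Form → Form

/-- Negation `¬φ` is `φ → 0`. -/
def Form.neg (φ : Form) : Form := φ.arr Form.bot

/-- Provability in the Hilbert calculus of MTL (schemata A1 to A10 of Esteva and Godo, with modus
ponens) extended by the set `Ax` of further formulas. -/
inductive Provable (Ax : Set Form) : Form → Prop
  | ax {φ : Form} : φ ∈ Ax → Provable Ax φ
  | a1 (φ ψ χ : Form) : Provable Ax ((φ.arr ψ).arr ((ψ.arr χ).arr (φ.arr χ)))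
  | a2 (φ ψ : Form) : Provable Ax ((φ.mul ψ).arr φ)
  | a3 (φ ψ : Form) : Provable Ax ((φ.mul ψ).arr (ψ.mul φ))
  | a4 (φ ψ : Form) : Provable Ax ((φ.inf ψ).arr φ)
  | a5 (φ ψ : Form) : Provable Ax ((φ.inf ψ).arr (ψ.inf φ))
  | a6 (φ ψ : Form) : Provable Ax ((φ.mul (φ.arr ψ)).arr (φ.inf ψ))
  | a7 (φ ψ χ : Form) : Provable Ax ((φ.arr (ψ.arr χ)).arr ((φ.mul ψ).arr χ))
  | a8 (φ ψ χ : Form) : Provable Ax (((φ.mul ψ).arr χ).arr (φ.arr (ψ.arr χ)))
  | a9 (φ ψ χ : Form) : Provable Ax (((φ.arr ψ).arr χ).arr (((ψ.arr φ).arr χ).arr χ))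
  | a10 (φ : Form) : Provable Ax (Form.bot.arr φ)
  | mp {φ ψ : Form} : Provable Ax (φ.arr ψ) → Provable Ax φ → Provable Ax ψ

/-- MTL itself: no further schema. -/
def MTL : Set Form := ∅

/-- IMTL: all instances of `¬¬φ → φ`. -/
def IMTL : Set Form := {θ | ∃ φ : Form, θ = φ.neg.neg.arr φ}

/-- PiMTL: all instances of `¬¬χ → ((φ * χ → ψ * χ) → (φ → ψ))` and of `φ ∧ ¬φ → 0`. -/
def PiMTL : Set Form :=
  {θ | (∃ φ ψ χ : Form, θ = χ.neg.neg.arr (((φ.mul χ).arr (ψ.mul χ)).arr (φ.arr ψ))) ∨
    (∃ φ : Form, θ = (φ.inf φ.neg).arr Form.bot)}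

/-- MTL-algebras: bounded integral commutative residuated lattices satisfying prelinearity. -/
class MTLAlgebra (A : Type u) extends Lattice A, BoundedOrder A, CommMonoid A where
  /-- the residuum of the monoid operation -/
  imp : A → A → A
  residuation : ∀ x y z : A, x * y ≤ z ↔ x ≤ imp y z
  one_eq_top : (1 : A) = ⊤
  prelinear : ∀ x y : A, imp x y ⊔ imp y x = 1

/-- The value of a formula under a valuation of the variables in an MTL-algebra. -/
def Form.eval {A : Type u} [MTLAlgebra A] (v : ℕ → A) : Form → A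
  | .var n => v n
  | .bot => ⊥
  | .mul φ ψ => φ.eval v * ψ.eval v
  | .arr φ ψ => MTLAlgebra.imp (φ.eval v) (ψ.eval v)
  | .inf φ ψ => φ.eval v ⊓ ψ.eval v

/-- `φ` is a tautology of `A`: it takes the value 1 under every valuation. -/
def Taut (A : Type u) [MTLAlgebra A] (φ : Form) : Prop := ∀ v : ℕ → A, φ.eval v = 1

/-- `A` is an `L`-chain: a totally ordered MTL-algebra in which the further schemata of `L`
hold identically. -/
def IsChainOf (L : Set Form) (A : Type u) [MTLAlgebra A] : Prop :=
  (∀ x y : A, x ≤ y ∨ y ≤ x) ∧ ∀ θ ∈ L, Taut A θ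

/-- Single chain completeness: one `L`-chain whose tautologies are exactly the theorems of `L`. -/
def SCC (L : Set Form) : Prop :=
  ∃ (A : Type u) (_ : MTLAlgebra A), IsChainOf L A ∧ ∀ φ : Form, Provable L φ ↔ Taut A φ

end Pool.Agent.P.MP_339e98_lc
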