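import Pool.Agent.P.MP_339e98_lc.Basic

/-! Completeness with respect to chains: linear theories and their Lindenbaum chains. -/

namespace Pool.Agent.P.MP_339e98_lc

namespace Provable

variable {T : Set Form} {a b c a' b' : Form}

theorem trans (h : Provable T (a.arr b)) (k : Provable T (b.arr c)) : Provable T (a.arr c) :=
  ((a1 a b c).mp h).mp k

theorem curry (h : Provable T ((a.mul b).arr c)) : Provable T (a.arr (b.arr c)) :=
  (a8 a b c).mp h

theorem uncurry (h : Provable T (a.arr (b.arr c))) : Provable T ((a.mul b).arr c) :=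
  (a7 a b c).mp h

theorem exch (h : Provable T (a.arr (b.arr c))) : Provable T (b.arr (a.arr c)) :=
  ((a3 b a).trans h.uncurry).curry

theorem weak (a b : Form) : Provable T (a.arr (b.arr a)) := (a2 a b).curry

theorem weaken (h : Provable T a) (b : Form) : Provable T (b.arr a) := (weak a b).mp h

theorem refl (a : Form) : Provable T (a.arr a) := (weak a (Form.bot.arr a)).exch.mp (a10 a)

theorem imp_mono_right (h : Provable T (b.arr c)) (a : Form) :
    Provable T ((a.arr b).arr (a.arr c)) := (a1 a b c).exch.mp h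

theorem imp_mono (h : Provable T (a'.arr a)) (k : Provable T (b.arr b')) :
    Provable T ((a.arr b).arr (a'.arr b')) := ((a1 a' a b).mp h).trans (k.imp_mono_right a')

theorem mul_mono_left (h : Provable T (a.arr b)) (c : Form) :
    Provable T ((a.mul c).arr (b.mul c)) := (h.trans (refl (b.mul c)).curry).uncurry

theorem mul_mono (h : Provable T (a.arr a')) (k : Provable T (b.arr b')) :
    Provable T ((a.mul b).arr (a'.mul b')) :=
  (h.mul_mono_left b).trans ((a3 a' b).trans ((k.mul_mono_left a').trans (a3 b' a')))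

theorem assoc1 (a b c : Form) : Provable T (((a.mul b).mul c).arr (a.mul (b.mul c))) :=
  ((refl (a.mul (b.mul c))).curry.trans (a8 b c _)).uncurry.uncurry

theorem assoc2 (a b c : Form) : Provable T ((a.mul (b.mul c)).arr ((a.mul b).mul c)) :=
  ((refl ((a.mul b).mul c)).curry.curry.trans (a7 b c _)).uncurry

theorem inf_right (a b : Form) : Provable T ((a.inf b).arr b) := (a5 a b).trans (a4 b a)

theorem le_inf_of_le (h : Provable T (a.arr b)) : Provable T (a.arr (a.inf b)) :=
  (a6 a b).curry.exch.mp h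

theorem mono {T T' : Set Form} (hT : T ⊆ T') (h : Provable T a) : Provable T' a := by
  induction h with
  | ax h => exact ax (hT h)
  | a1 => exact a1 ..
  | a2 => exact a2 ..
  | a3 => exact a3 ..
  | a4 => exact a4 ..
  | a5 => exact a5 ..
  | a6 => exact a6 ..
  | a7 => exact a7 ..
  | a8 => exact a8 ..
  | a9 => exact a9 ..
  | a10 => exact a10 ..
  | mp _ _ ih1 ih2 => exact ih1.mp ih2

end Provable

/-- Iterated implication `p → (p → ... → θ)`. -/
def impN (p : Form) : ℕ → Form → Form
  | 0, θ => θ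
  | n + 1, θ => p.arr (impN p n θ)

theorem impN_add (p : Form) (θ : Form) (m : ℕ) : ∀ n : ℕ,
    impN p (m + n) θ = impN p n (impN p m θ)
  | 0 => rfl
  | n + 1 => by rw [← add_assoc, impN, impN, impN_add p θ m n]

theorem impN_succ' (p θ : Form) (n : ℕ) : impN p (n + 1) θ = impN p n (p.arr θ) := by
  rw [add_comm, impN_add]; rfl

theorem impN_mono {T : Set Form} {a b : Form} (p : Form) (h : Provable T (a.arr b)) :
    ∀ n : ℕ, Provable T ((impN p n a).arr (impN p n b))
  | 0 => h
  | n + 1 => (impN_mono p h n).imp_mono_right p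

theorem impN_exch {T : Set Form} (p a b : Form) :
    ∀ n : ℕ, Provable T ((impN p n (a.arr b)).arr (a.arr (impN p n b)))
  | 0 => Provable.refl _
  | n + 1 => by
    refine ((impN_exch p a b n).imp_mono_right p).trans ?_
    exact (Provable.a7 p a _).trans
      ((((Provable.a1 _ _ _).mp (Provable.a3 a p))).trans (Provable.a8 a p _))

theorem local_deduction {T : Set Form} {p θ : Form} (h : Provable (insert p T) θ) :
    ∃ n, Provable T (impN p n θ) := by
  induction h with
  | ax h =>
    rcases h with rfl | h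
    · exact ⟨1, Provable.refl _⟩
    · exact ⟨0, Provable.ax h⟩
  | a1 => exact ⟨0, Provable.a1 ..⟩
  | a2 => exact ⟨0, Provable.a2 ..⟩
  | a3 => exact ⟨0, Provable.a3 ..⟩
  | a4 => exact ⟨0, Provable.a4 ..⟩
  | a5 => exact ⟨0, Provable.a5 ..⟩
  | a6 => exact ⟨0, Provable.a6 ..⟩
  | a7 => exact ⟨0, Provable.a7 ..⟩
  | a8 => exact ⟨0, Provable.a8 ..⟩
  | a9 => exact ⟨0, Provable.a9 ..⟩
  | a10 => exact ⟨0, Provable.a10 ..⟩
  | @mp a b _ _ ih1 ih2 =>
    obtain ⟨n, hn⟩ := ih1
    obtain ⟨m, hm⟩ := ih2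
    refine ⟨n + m, ?_⟩
    rw [impN_add]
    exact (impN_mono p ((impN_exch p a b n).mp hn) m).mp hm

theorem cases_aux {T : Set Form} (ψ χ : Form) : ∀ (k i j : ℕ) (θ : Form), i + j = k →
    Provable T (impN (ψ.arr χ) i θ) → Provable T (impN (χ.arr ψ) j θ) → Provable T θ := by
  intro k
  induction k with
  | zero =>
    intro i j θ h h1 _
    obtain rfl : i = 0 := by omega
    exact h1
  | succ k ih =>
    intro i j θ h h1 h2
    rcases i with _ | i
    · exact h1
    rcases j with _ | j
    · exact h2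
    have hp : Provable T ((ψ.arr χ).arr θ) := by
      refine ih i (j + 1) _ (by omega) (by rwa [← impN_succ']) ?_
      exact (impN_mono _ (Provable.weak θ _) _).mp h2
    have hq : Provable T ((χ.arr ψ).arr θ) := by
      refine ih (i + 1) j _ (by omega) ?_ (by rwa [← impN_succ'])
      exact (impN_mono _ (Provable.weak θ _) _).mp h1
    exact ((Provable.a9 ψ χ θ).mp hp).mp hq

theorem by_cases_lin {T : Set Form} {ψ χ θ : Form} (h1 : Provable (insert (ψ.arr χ) T) θ)
    (h2 : Provable (insert (χ.arr ψ) T) θ) : Provable T θ := by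
  obtain ⟨i, hi⟩ := local_deduction h1
  obtain ⟨j, hj⟩ := local_deduction h2
  exact cases_aux ψ χ _ i j θ rfl hi hj

theorem provable_sUnion {c : Set (Set Form)} (hc : IsChain (· ⊆ ·) c) (hne : c.Nonempty)
    {θ : Form} (h : Provable (⋃₀ c) θ) : ∃ t ∈ c, Provable t θ := by
  obtain ⟨t0, ht0⟩ := hne
  induction h with
  | ax h =>
    obtain ⟨t, ht, h⟩ := h
    exact ⟨t, ht, Provable.ax h⟩
  | a1 => exact ⟨t0, ht0, Provable.a1 ..⟩
  | a2 => exact ⟨t0, ht0, Provable.a2 ..⟩
  | a3 => exact ⟨t0, ht0, Provable.a3 ..⟩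
  | a4 => exact ⟨t0, ht0, Provable.a4 ..⟩
  | a5 => exact ⟨t0, ht0, Provable.a5 ..⟩
  | a6 => exact ⟨t0, ht0, Provable.a6 ..⟩
  | a7 => exact ⟨t0, ht0, Provable.a7 ..⟩
  | a8 => exact ⟨t0, ht0, Provable.a8 ..⟩
  | a9 => exact ⟨t0, ht0, Provable.a9 ..⟩
  | a10 => exact ⟨t0, ht0, Provable.a10 ..⟩
  | mp _ _ ih1 ih2 =>
    obtain ⟨s, hs, h1⟩ := ih1
    obtain ⟨t, ht, h2⟩ := ih2
    rcases hc.total hs ht with h | h
    · exact ⟨t, ht, (h1.mono h).mp h2⟩
    · exact ⟨s, hs, h1.mp (h2.mono h)⟩

/-- A theory is linear if it decides the order of any two formulas. -/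
def Linear (T : Set Form) : Prop :=
  ∀ ψ χ : Form, Provable T (ψ.arr χ) ∨ Provable T (χ.arr ψ)

theorem exists_linear {L : Set Form} {φ : Form} (h : ¬ Provable L φ) :
    ∃ T : Set Form, L ⊆ T ∧ Linear T ∧ ¬ Provable T φ := by
  obtain ⟨T, hLT, hT⟩ := zorn_subset_nonempty {t : Set Form | ¬ Provable t φ} (by
    intro c hcs hc hne
    refine ⟨⋃₀ c, ?_, fun s hs => Set.subset_sUnion_of_mem hs⟩
    intro hp
    obtain ⟨t, ht, hp⟩ := provable_sUnion hc hne hp
    exact hcs ht hp) L h
  refine ⟨T, hLT, ?_, hT.prop⟩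
  intro ψ χ
  by_contra hc
  rw [not_or] at hc
  have step : ∀ p : Form, ¬ Provable T p → Provable (insert p T) φ := by
    intro p hp
    by_contra hn
    have := hT.eq_of_subset hn (Set.subset_insert p T)
    exact hp (Provable.ax (this ▸ Set.mem_insert p T))
  exact hT.prop (by_cases_lin (step _ hc.1) (step _ hc.2))

/-- Provable equivalence over a theory. -/
def eqv (T : Set Form) : Setoid Form where
  r a b := Provable T (a.arr b) ∧ Provable T (b.arr a)
  iseqv := ⟨fun a => ⟨Provable.refl a, Provable.refl a⟩, fun h => ⟨h.2, h.1⟩,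
    fun h k => ⟨h.1.trans k.1, k.2.trans h.2⟩⟩

/-- The Lindenbaum algebra of a linear theory. -/
def Lind (T : Set Form) (_ : Linear T) : Type := Quotient (eqv T)

namespace Lind

variable {T : Set Form} {hT : Linear T}

/-- The class of a formula. -/
def mk (hT : Linear T) (a : Form) : Lind T hT := Quotient.mk (eqv T) a

theorem ind {P : Lind T hT → Prop} (h : ∀ a, P (mk hT a)) (x : Lind T hT) : P x :=
  Quotient.inductionOn x h

theorem mk_eq {a b : Form} (h : Provable T (a.arr b)) (k : Provable T (b.arr a)) :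
    mk hT a = mk hT b := Quotient.sound ⟨h, k⟩

instance : LE (Lind T hT) where
  le := Quotient.lift₂ (fun a b => Provable T (a.arr b)) (by
    rintro a b a' b' ⟨h1, h2⟩ ⟨k1, k2⟩
    exact propext ⟨fun h => h2.trans (h.trans k1), fun h => h1.trans (h.trans k2)⟩)

theorem mk_le {a b : Form} : mk hT a ≤ mk hT b ↔ Provable T (a.arr b) := Iff.rfl

noncomputable instance : LinearOrder (Lind T hT) where
  le_refl := ind fun a => Provable.refl a
  le_trans := ind fun _ => ind fun _ => ind fun _ h k => Provable.trans h k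
  le_antisymm := ind fun _ => ind fun _ h k => mk_eq h k
  le_total := ind fun a => ind fun b => hT a b
  toDecidableLE := Classical.decRel _

instance : BoundedOrder (Lind T hT) where
  top := mk hT (Form.bot.arr Form.bot)
  le_top := ind fun a => (Provable.refl Form.bot).weaken a
  bot := mk hT Form.bot
  bot_le := ind fun a => Provable.a10 a

instance : Mul (Lind T hT) where
  mul := Quotient.map₂ Form.mul (by
    rintro a a' ⟨h1, h2⟩ b b' ⟨k1, k2⟩
    exact ⟨h1.mul_mono k1, h2.mul_mono k2⟩)

/-- The residuum. -/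
def im : Lind T hT → Lind T hT → Lind T hT :=
  Quotient.map₂ Form.arr (by
    rintro a a' ⟨h1, h2⟩ b b' ⟨k1, k2⟩
    exact ⟨h2.imp_mono k1, h1.imp_mono k2⟩)

instance : CommMonoid (Lind T hT) where
  one := ⊤
  mul_assoc := ind fun a => ind fun b => ind fun c =>
    mk_eq (Provable.assoc1 a b c) (Provable.assoc2 a b c)
  mul_comm := ind fun a => ind fun b => mk_eq (Provable.a3 a b) (Provable.a3 b a)
  one_mul := ind fun a => mk_eq ((Provable.a3 _ _).trans (Provable.a2 _ _))
    ((Provable.refl _).curry.mp (Provable.refl _))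
  mul_one := ind fun a => mk_eq (Provable.a2 _ _)
    ((Provable.refl _).curry.exch.mp (Provable.refl _))

noncomputable instance alg : MTLAlgebra (Lind T hT) :=
  ofLinear (Lind T hT) im
    (ind fun _ => ind fun _ => ind fun _ => ⟨Provable.curry, Provable.uncurry⟩) rfl

theorem mk_inf (a b : Form) : mk hT (a.inf b) = mk hT a ⊓ mk hT b := by
  refine le_antisymm (le_inf (Provable.a4 a b) (Provable.inf_right a b)) ?_
  rcases hT a b with h | h
  · exact inf_le_left.trans h.le_inf_of_le
  · exact inf_le_right.trans (h.le_inf_of_le.trans (Provable.a5 _ _))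

theorem eval_mk : ∀ φ : Form, φ.eval (fun n => mk hT (Form.var n)) = mk hT φ
  | .var _ => rfl
  | .bot => rfl
  | .mul a b => by rw [Form.eval, eval_mk a, eval_mk b]; rfl
  | .arr a b => by rw [Form.eval, eval_mk a, eval_mk b]; rfl
  | .inf a b => by rw [Form.eval, eval_mk a, eval_mk b, mk_inf]

theorem mk_eq_one {a : Form} : mk hT a = 1 ↔ Provable T a := by
  constructor
  · intro h
    have : (1 : Lind T hT) ≤ mk hT a := h.ge
    exact Provable.mp this (Provable.refl _)
  · intro h
    exact le_antisymm (le_one' _) (h.weaken _)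

theorem chain_Pi (hL : PiMTL ⊆ T) : IsChainOf PiMTL (Lind T hT) := by
  refine ⟨fun x y => le_total x y, ?_⟩
  rintro θ (⟨φ, ψ, χ, rfl⟩ | ⟨φ, rfl⟩) v
  · simp only [Form.eval, Form.neg]
    generalize φ.eval v = x
    generalize ψ.eval v = y
    generalize χ.eval v = z
    revert x y z
    refine ind fun a => ind fun b => ind fun c => ?_
    exact mk_eq_one.2 (Provable.ax (hL (Or.inl ⟨a, b, c, rfl⟩)))
  · simp only [Form.eval, Form.neg]
    generalize φ.eval v = x
    revert x
    refine ind fun a => ?_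
    have := mk_eq_one (hT := hT).2 (Provable.ax (hL (Or.inr ⟨a, rfl⟩)))
    change MTLAlgebra.imp (mk hT a ⊓ mk hT a.neg) ⊥ = 1
    rw [← mk_inf]
    exact this

end Lind

/-- Completeness of PiMTL with respect to its chains. -/
theorem exists_countermodel {φ : Form} (h : ¬ Provable PiMTL φ) :
    ∃ (A : Type) (_ : MTLAlgebra A), IsChainOf PiMTL A ∧ ¬ Taut A φ := by
  obtain ⟨T, hL, hT, hφ⟩ := exists_linear h
  refine ⟨Lind T hT, Lind.alg, Lind.chain_Pi hL, fun ht => hφ ?_⟩
  have := ht (fun n => Lind.mk hT (Form.var n))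
  rwa [Lind.eval_mk, Lind.mk_eq_one] at this

end Pool.Agent.P.MP_339e98_lc
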