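import Pool.Agent.P.MP_339e98_lc.Basic

/-! MTL and IMTL fail single chain completeness. -/

namespace Pool.Agent.P.MP_339e98_lc

universe u

open MTLAlgebra

/-- The five-element Lukasiewicz chain. -/
def L5 : Type := Fin 5

instance : LinearOrder L5 := inferInstanceAs (LinearOrder (Fin 5))
instance : BoundedOrder L5 := inferInstanceAs (BoundedOrder (Fin 5))
instance : Fintype L5 := inferInstanceAs (Fintype (Fin 5))

/-- Product of the five-element Lukasiewicz chain. -/
def L5.m (x y : Fin 5) : Fin 5 := ⟨(x.val + y.val - 4) % 5, Nat.mod_lt _ (by norm_num)⟩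

/-- Residuum of the five-element Lukasiewicz chain. -/
def L5.i (x y : Fin 5) : Fin 5 := ⟨(min 4 (4 + y.val - x.val)) % 5, Nat.mod_lt _ (by norm_num)⟩

instance : CommMonoid L5 where
  mul := L5.m
  one := (4 : Fin 5)
  mul_assoc := show ∀ a b c : Fin 5, L5.m (L5.m a b) c = L5.m a (L5.m b c) by decide
  one_mul := show ∀ a : Fin 5, L5.m 4 a = a by decide
  mul_one := show ∀ a : Fin 5, L5.m a 4 = a by decide
  mul_comm := show ∀ a b : Fin 5, L5.m a b = L5.m b a by decide

instance L5.alg : MTLAlgebra L5 :=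
  ofLinear L5 L5.i (show ∀ x y z : Fin 5, L5.m x y ≤ z ↔ x ≤ L5.i y z by decide) rfl

/-- A six-element involutive chain `0 < e^3 < e^2 < ¬e^2 < e < 1`. -/
def W6 : Type := Fin 6

instance : LinearOrder W6 := inferInstanceAs (LinearOrder (Fin 6))
instance : BoundedOrder W6 := inferInstanceAs (BoundedOrder (Fin 6))
instance : Fintype W6 := inferInstanceAs (Fintype (Fin 6))

/-- Product of the six-element chain. -/
def W6.m (x y : Fin 6) : Fin 6 :=
  if x = 5 then y else if y = 5 then x else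
  if x = 4 ∧ y = 4 then 2 else if x.val + y.val ≥ 6 then 1 else 0

/-- Residuum of the six-element chain. -/
def W6.i (x y : Fin 6) : Fin 6 :=
  if W6.m 5 x ≤ y then 5 else if W6.m 4 x ≤ y then 4 else if W6.m 3 x ≤ y then 3 else
  if W6.m 2 x ≤ y then 2 else if W6.m 1 x ≤ y then 1 else 0

instance : CommMonoid W6 where
  mul := W6.m
  one := (5 : Fin 6)
  mul_assoc := show ∀ a b c : Fin 6, W6.m (W6.m a b) c = W6.m a (W6.m b c) by decide
  one_mul := show ∀ a : Fin 6, W6.m 5 a = a by decide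
  mul_one := show ∀ a : Fin 6, W6.m a 5 = a by decide
  mul_comm := show ∀ a b : Fin 6, W6.m a b = W6.m b a by decide

instance W6.alg : MTLAlgebra W6 :=
  ofLinear W6 W6.i (show ∀ x y z : Fin 6, W6.m x y ≤ z ↔ x ≤ W6.i y z by decide) rfl

theorem L5.chain : IsChainOf IMTL L5 := by
  refine ⟨fun x y => le_total x y, ?_⟩
  rintro θ ⟨φ, rfl⟩ v
  simp only [Form.eval, Form.neg]
  generalize φ.eval v = x
  exact (show ∀ x : Fin 5, L5.i (L5.i (L5.i x 0) 0) x = 4 by decide) x

theorem W6.chain : IsChainOf IMTL W6 := by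
  refine ⟨fun x y => le_total x y, ?_⟩
  rintro θ ⟨φ, rfl⟩ v
  simp only [Form.eval, Form.neg]
  generalize φ.eval v = x
  exact (show ∀ x : Fin 6, W6.i (W6.i (W6.i x 0) 0) x = 5 by decide) x

/-- Powers of a formula. -/
def Form.pow (φ : Form) : ℕ → Form
  | 0 => Form.bot.arr Form.bot
  | n + 1 => (φ.pow n).mul φ

theorem eval_pow {A : Type u} [MTLAlgebra A] (v : ℕ → A) (φ : Form) :
    ∀ n : ℕ, (φ.pow n).eval v = φ.eval v ^ n
  | 0 => by simp [Form.pow, Form.eval, imp_eq_one]
  | n + 1 => by simp only [Form.pow, Form.eval, eval_pow v φ n, pow_succ]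

/-- The first diagram. -/
def D1 : Form :=
  (((Form.var 0).pow 4).neg).inf ((((Form.var 0).pow 2).neg).arr ((Form.var 0).pow 2))

/-- The second diagram. -/
def D2 : Form :=
  (((Form.var 0).neg.arr ((Form.var 0).pow 3)).inf ((Form.var 0).pow 4).neg).inf
    (((Form.var 0).neg.neg.arr (Form.var 0)).inf
      ((((Form.var 0).pow 2).neg.arr ((Form.var 0).pow 2)).arr (Form.var 0)))

theorem D1_L5 : D1.eval (A := L5) (fun _ => (3 : Fin 5)) = 1 := by decide
theorem D2_W6 : D2.eval (A := W6) (fun _ => (4 : Fin 6)) = 1 := by decide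

theorem not_taut_pow {A : Type u} [MTLAlgebra A] (h : (⊥ : A) ≠ 1) (φ : Form) (v : ℕ → A)
    (hv : φ.eval v = 1) (n : ℕ) : ¬ Taut A (φ.pow n).neg := by
  intro ht
  have := ht v
  simp only [Form.neg, Form.eval, eval_pow, hv, one_pow, imp_eq_one] at this
  exact h (le_antisymm (le_one' _) this)

theorem taut_or {A : Type u} [MTLAlgebra A] (htot : ∀ x y : A, x ≤ y ∨ y ≤ x) :
    Taut A (D1.pow 57).neg ∨ Taut A (D2.pow 57).neg := by
  by_contra hc
  rw [not_or] at hc
  obtain ⟨h1, h2⟩ := hc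
  simp only [Taut, not_forall, Form.neg, Form.eval, eval_pow, imp_eq_one, le_bot_iff] at h1 h2
  obtain ⟨v, hv⟩ := h1
  obtain ⟨w, hw⟩ := h2
  have hk : (D1.eval v ⊓ D2.eval w) ^ 57 = ⊥ := by
    have e1 : D1.eval v ⊓ D2.eval w ≤ D1.eval v := inf_le_left
    have e2 : D1.eval v ⊓ D2.eval w ≤ D2.eval w := inf_le_right
    generalize D1.eval v ⊓ D2.eval w = d at e1 e2
    simp only [D1, D2, Form.neg, Form.eval, eval_pow, le_inf_iff] at e1 e2
    exact key htot d (v 0) (w 0) e1.1 e1.2 e2.1.1 e2.1.2 e2.2.1 e2.2.2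
  rcases htot (D1.eval v) (D2.eval w) with h | h
  · rw [inf_eq_left.2 h] at hk; exact hv hk
  · rw [inf_eq_right.2 h] at hk; exact hw hk

/-- Any logic between MTL and IMTL (more generally, any extension of which both finite chains
are chains) fails single chain completeness. -/
theorem not_scc (L : Set Form) (h5 : IsChainOf L L5) (h6 : IsChainOf L W6) : ¬ SCC.{u} L := by
  rintro ⟨A, _, hA, hc⟩
  rcases taut_or hA.1 with h | h
  · exact not_taut_pow (by decide) D1 _ D1_L5 57 (sound h5 ((hc _).2 h))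
  · exact not_taut_pow (by decide) D2 _ D2_W6 57 (sound h6 ((hc _).2 h))

theorem not_scc_IMTL : ¬ SCC.{u} IMTL := not_scc _ L5.chain W6.chain

theorem not_scc_MTL : ¬ SCC.{u} MTL :=
  not_scc _ ⟨L5.chain.1, fun _ h => h.elim⟩ ⟨W6.chain.1, fun _ h => h.elim⟩

end Pool.Agent.P.MP_339e98_lc
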