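import Pool.Agent.P.MP_339e98_lc.Lind

/-! PiMTL has single chain completeness: lexicographic products of cancellative chains. -/

namespace Pool.Agent.P.MP_339e98_lc

universe u v

open MTLAlgebra

/-- Cancellative integral commutative residuated chains. -/
class CanChain (P : Type u) extends LinearOrder P, CommMonoid P where
  /-- the residuum -/
  im : P → P → P
  res : ∀ x y z : P, x * y ≤ z ↔ x ≤ im y z
  le_one : ∀ x : P, x ≤ 1
  cancel : ∀ x y z : P, x * z ≤ y * z → x ≤ y

namespace CanChain

variable {P : Type u} [CanChain P]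

theorem im_mul_le (x y : P) : im x y * x ≤ y := (res _ _ _).2 le_rfl

theorem im_one_one : im (1 : P) 1 = 1 :=
  le_antisymm (le_one _) ((res _ _ _).1 (le_one _))

end CanChain

section Lexico

variable {ι : Type u} [LinearOrder ι] [WellFoundedLT ι] {P : ι → Type v} [∀ i, CanChain (P i)]

open Classical in
/-- The residuum of the lexicographic product. -/
noncomputable def lexIm (f g : Lex (∀ i, P i)) : Lex (∀ i, P i) :=
  toLex fun i => if ∀ j < i, CanChain.im (f j) (g j) * f j = g j then CanChain.im (f i) (g i) else 1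

omit [WellFoundedLT ι] in
theorem lexIm_lt (k f g : Lex (∀ i, P i)) : g < k * f ↔ lexIm f g < k := by
  constructor
  · rintro ⟨i, h1, h2⟩
    have h1' : ∀ j < i, g j = k j * f j := h1
    have h2' : g i < k i * f i := h2
    have e : ∀ j < i, CanChain.im (f j) (g j) = k j := by
      intro j hj
      refine le_antisymm (CanChain.cancel _ _ (f j) ?_) ((CanChain.res _ _ _).1 (h1' j hj).ge)
      exact (CanChain.im_mul_le _ _).trans (h1' j hj).le
    have t : ∀ j < i, CanChain.im (f j) (g j) * f j = g j := by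
      intro j hj; rw [e j hj, h1' j hj]
    refine ⟨i, fun j hj => ?_, ?_⟩
    · have : ∀ l < j, CanChain.im (f l) (g l) * f l = g l := fun l hl => t l (hl.trans hj)
      simp only [lexIm, Pi.toLex_apply]
      rw [if_pos this, e j hj]
    · simp only [lexIm, Pi.toLex_apply]
      rw [if_pos t]
      exact lt_of_not_ge fun h => h2'.not_ge ((CanChain.res _ _ _).2 h)
  · rintro ⟨i, h1, h2⟩
    simp only [lexIm, Pi.toLex_apply] at h1 h2
    have t : ∀ j < i, CanChain.im (f j) (g j) * f j = g j := by
      by_contra hc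
      rw [if_neg hc] at h2
      exact h2.not_ge (CanChain.le_one _)
    rw [if_pos t] at h2
    refine ⟨i, fun j hj => ?_, ?_⟩
    · have : ∀ l < j, CanChain.im (f l) (g l) * f l = g l := fun l hl => t l (hl.trans hj)
      have h := h1 j hj
      rw [if_pos this] at h
      change g j = k j * f j
      rw [← h, t j hj]
    · change g i < k i * f i
      exact lt_of_not_ge fun h => h2.not_ge ((CanChain.res _ _ _).1 h)

noncomputable instance lexChain : CanChain (Lex (∀ i, P i)) where
  im := lexIm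
  res := fun x y z => by rw [← not_lt, ← not_lt]; exact not_congr (lexIm_lt x y z)
  le_one := fun x => by
    rw [← not_lt]
    rintro ⟨i, -, h⟩
    exact h.not_ge (CanChain.le_one _)
  cancel := fun x y z h => by
    rw [← not_lt] at h ⊢
    rintro ⟨i, h1, h2⟩
    refine h ⟨i, fun j hj => ?_, ?_⟩
    · change y j * z j = x j * z j
      rw [h1 j hj]
    · change y i * z i < x i * z i
      exact lt_of_not_ge fun h => h2.not_ge (CanChain.cancel _ _ _ h)

/-- The embedding of one factor. -/
noncomputable def emb (i : ι) (a : P i) : Lex (∀ i, P i) := toLex (Function.update 1 i a)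

omit [WellFoundedLT ι] in
theorem emb_mul (i : ι) (a b : P i) : emb i (a * b) = emb i a * emb i b := by
  funext j
  change Function.update (1 : ∀ i, P i) i (a * b) j =
    Function.update (1 : ∀ i, P i) i a j * Function.update (1 : ∀ i, P i) i b j
  by_cases h : j = i
  · subst h; simp
  · simp [Function.update_of_ne h]

omit [WellFoundedLT ι] in
theorem emb_im (i : ι) (a b : P i) : emb i (CanChain.im a b) = lexIm (emb i a) (emb i b) := by
  funext j
  simp only [lexIm, emb, Pi.toLex_apply]
  by_cases h : j = i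
  · subst h
    rw [if_pos]
    · simp
    · intro l hl
      simp [Function.update_of_ne hl.ne, CanChain.im_one_one]
  · simp [Function.update_of_ne h, CanChain.im_one_one]

theorem emb_mono (i : ι) {a b : P i} (h : a ≤ b) : emb i a ≤ emb i b :=
  Pi.toLex_monotone (update_le_update_iff.2 ⟨h, fun _ _ => le_rfl⟩)

omit [WellFoundedLT ι] in
theorem emb_eq_one (i : ι) {a : P i} (h : emb i a = 1) : a = 1 := by
  have : Function.update (1 : ∀ i, P i) i a i = 1 := congrFun h i
  rwa [Function.update_self] at this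

end Lexico

/-- A cancellative chain with a new least element. -/
def Ext (P : Type u) : Type u := WithBot P

namespace Ext

variable {P : Type u} [CanChain P]

noncomputable instance : LinearOrder (Ext P) := inferInstanceAs (LinearOrder (WithBot P))

/-- The inclusion. -/
def of (a : P) : Ext P := WithBot.some a

instance : BoundedOrder (Ext P) where
  bot := (⊥ : WithBot P)
  bot_le := fun a => (bot_le : (⊥ : WithBot P) ≤ a)
  top := of 1
  le_top := fun a => by
    induction a using WithBot.recBotCoe with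
    | bot => exact (bot_le : (⊥ : WithBot P) ≤ _)
    | coe a => exact WithBot.coe_le_coe.2 (CanChain.le_one a)

theorem ind {Q : Ext P → Prop} (h0 : Q ⊥) (h1 : ∀ a, Q (of a)) : ∀ x, Q x
  | none => h0
  | some a => h1 a

theorem of_le {a b : P} : of a ≤ of b ↔ a ≤ b := WithBot.coe_le_coe

theorem not_of_le_bot (a : P) : ¬ of a ≤ ⊥ := WithBot.not_coe_le_bot a

/-- The product. -/
def m : Ext P → Ext P → Ext P
  | some a, some b => some (a * b)
  | _, _ => none

/-- The residuum. -/
def i : Ext P → Ext P → Ext P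
  | none, _ => some 1
  | some _, none => none
  | some a, some b => some (CanChain.im a b)

instance : CommMonoid (Ext P) where
  mul := m
  one := of 1
  mul_assoc := by
    rintro (_ | a) (_ | b) (_ | c) <;> first | rfl | exact congrArg some (mul_assoc a b c)
  mul_comm := by
    rintro (_ | a) (_ | b) <;> first | rfl | exact congrArg some (mul_comm a b)
  one_mul := by
    rintro (_ | a) <;> first | rfl | exact congrArg some (one_mul a)
  mul_one := by
    rintro (_ | a) <;> first | rfl | exact congrArg some (mul_one a)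

theorem res' : ∀ x y z : Ext P, x * y ≤ z ↔ x ≤ i y z := by
  refine ind (fun y z => iff_of_true ?_ bot_le) fun a => ind (fun z => ?_) fun b => ind ?_ fun c => ?_
  · cases y <;> exact bot_le
  · exact iff_of_true bot_le le_top
  · exact iff_of_false (not_of_le_bot _) (not_of_le_bot _)
  · exact of_le.trans ((CanChain.res a b c).trans of_le.symm)

noncomputable instance alg : MTLAlgebra (Ext P) := ofLinear (Ext P) i res' rfl

theorem chain_Pi : IsChainOf PiMTL (Ext P) := by
  refine ⟨fun x y => le_total x y, ?_⟩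
  rintro θ (⟨φ, ψ, χ, rfl⟩ | ⟨φ, rfl⟩) v
  · simp only [Form.eval, Form.neg]
    generalize φ.eval v = x
    generalize ψ.eval v = y
    generalize χ.eval v = z
    rw [imp_eq_one]
    revert z
    refine ind bot_le fun c => ?_
    refine (le_one' _).trans (imp_eq_one.2 ?_).ge
    revert x y
    refine ind (fun y => le_top) fun a => ind bot_le fun b => ?_
    refine of_le.2 ((CanChain.res _ _ _).1 (CanChain.cancel _ _ c ?_))
    rw [mul_assoc]
    exact CanChain.im_mul_le _ _
  · simp only [Form.eval, Form.neg]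
    generalize φ.eval v = x
    rw [imp_eq_one]
    revert x
    exact ind inf_le_left fun a => inf_le_right

end Ext

section Positive

variable {A : Type} [MTLAlgebra A]

theorem pi_neg (hA : IsChainOf PiMTL A) {x : A} (hx : x ≠ ⊥) : imp x ⊥ = ⊥ := by
  have h := hA.2 _ (Or.inr ⟨Form.var 0, rfl⟩) (fun _ => x)
  simp only [Form.eval, Form.neg, imp_eq_one, le_bot_iff] at h
  rcases hA.1 x (imp x ⊥) with k | k
  · rw [inf_eq_left.2 k] at h; exact (hx h).elim
  · rwa [inf_eq_right.2 k] at h

theorem pi_cancel (hA : IsChainOf PiMTL A) {x y z : A} (hz : z ≠ ⊥) (h : x * z ≤ y * z) :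
    x ≤ y := by
  have k := hA.2 _ (Or.inl ⟨Form.var 0, Form.var 1, Form.var 2, rfl⟩)
    (fun n => if n = 0 then x else if n = 1 then y else z)
  simp only [Form.eval, Form.neg, imp_eq_one] at k
  simp only [if_true, one_ne_zero, if_false, OfNat.ofNat_ne_zero, OfNat.ofNat_ne_one] at k
  rw [pi_neg hA hz, imp_eq_one.2 (le_refl (⊥ : A)), imp_eq_one.2 h] at k
  have k2 := (residuation _ _ _).2 k
  rw [one_mul] at k2
  exact imp_eq_one.1 (le_antisymm (le_one' _) k2)

theorem pi_mul_ne (hA : IsChainOf PiMTL A) {x y : A} (hx : x ≠ ⊥) (hy : y ≠ ⊥) : x * y ≠ ⊥ := by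
  intro h
  refine hx (le_bot_iff.1 (pi_cancel hA hy ?_))
  rw [h]; exact bot_le

theorem imp_ne {x y : A} (hy : y ≠ ⊥) : imp x y ≠ ⊥ := by
  intro h
  refine hy (le_bot_iff.1 ?_)
  rw [← h, ← residuation]
  exact mul_le_left' _ _

/-- The nonzero part of a PiMTL-chain. -/
def PosPart (A : Type) [MTLAlgebra A] (_ : IsChainOf PiMTL A) (_ : (1 : A) ≠ ⊥) : Type :=
  {x : A // x ≠ ⊥}

noncomputable instance PosPart.chain (hA : IsChainOf PiMTL A) (h1 : (1 : A) ≠ ⊥) :
    CanChain (PosPart A hA h1) where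
  le x y := x.1 ≤ y.1
  le_refl x := le_refl x.1
  le_trans _ _ _ h k := le_trans h k
  le_antisymm _ _ h k := Subtype.ext (le_antisymm h k)
  le_total x y := hA.1 x.1 y.1
  toDecidableLE := Classical.decRel _
  mul x y := ⟨x.1 * y.1, pi_mul_ne hA x.2 y.2⟩
  one := ⟨1, h1⟩
  mul_assoc x y z := Subtype.ext (mul_assoc x.1 y.1 z.1)
  mul_comm x y := Subtype.ext (mul_comm x.1 y.1)
  one_mul x := Subtype.ext (one_mul x.1)
  mul_one x := Subtype.ext (mul_one x.1)
  im x y := ⟨imp x.1 y.1, imp_ne y.2⟩
  res x y z := residuation x.1 y.1 z.1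
  le_one x := le_one' x.1
  cancel _ _ z h := pi_cancel hA z.2 h

/-- A map of MTL-chains that preserves the operations commutes with evaluation. -/
theorem eval_map {B : Type u} [MTLAlgebra B] (hA : ∀ x y : A, x ≤ y ∨ y ≤ x) (f : A → B)
    (hb : f ⊥ = ⊥) (hm : ∀ x y, f (x * y) = f x * f y) (hi : ∀ x y, f (imp x y) = imp (f x) (f y))
    (hle : ∀ x y, x ≤ y → f x ≤ f y) (v : ℕ → A) :
    ∀ φ : Form, φ.eval (fun n => f (v n)) = f (φ.eval v)
  | .var _ => rfl
  | .bot => hb.symm
  | .mul a b => by
    rw [Form.eval, eval_map hA f hb hm hi hle v a, eval_map hA f hb hm hi hle v b, Form.eval, hm]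
  | .arr a b => by
    rw [Form.eval, eval_map hA f hb hm hi hle v a, eval_map hA f hb hm hi hle v b, Form.eval, hi]
  | .inf a b => by
    rw [Form.eval, eval_map hA f hb hm hi hle v a, eval_map hA f hb hm hi hle v b, Form.eval]
    rcases hA (a.eval v) (b.eval v) with h | h
    · rw [inf_eq_left.2 h, inf_eq_left.2 (hle _ _ h)]
    · rw [inf_eq_right.2 h, inf_eq_right.2 (hle _ _ h)]

/-- A PiMTL-chain whose nonzero part embeds in `Q` has at most the tautologies of `Ext Q`. -/
theorem taut_of_emb (hA : IsChainOf PiMTL A) (h1 : (1 : A) ≠ ⊥) {Q : Type u} [CanChain Q]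
    (g : PosPart A hA h1 → Q) (gm : ∀ x y, g (x * y) = g x * g y)
    (gi : ∀ x y, g (CanChain.im x y) = CanChain.im (g x) (g y))
    (gle : ∀ x y, x ≤ y → g x ≤ g y) (g1 : ∀ x, g x = 1 → x = 1) {φ : Form}
    (h : Taut (Ext Q) φ) : Taut A φ := by
  classical
  let f : A → Ext Q := fun x => if hx : x = ⊥ then ⊥ else Ext.of (g ⟨x, hx⟩)
  have fb : f ⊥ = ⊥ := dif_pos rfl
  have fn : ∀ (x : A) (hx : x ≠ ⊥), f x = Ext.of (g ⟨x, hx⟩) := fun x hx => dif_neg hx
  have gone : g 1 = 1 := by
    refine le_antisymm (CanChain.le_one _) (CanChain.cancel _ _ (g 1) ?_)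
    rw [← gm, one_mul, one_mul]
  intro v
  have key := eval_map hA.1 f fb ?_ ?_ ?_ v φ
  · rw [h] at key
    by_cases hx : φ.eval v = ⊥
    · rw [hx, fb] at key
      exact (Ext.not_of_le_bot (1 : Q) key.le).elim
    · rw [fn _ hx] at key
      exact congrArg Subtype.val (g1 _ (Option.some.inj key).symm)
  · intro x y
    by_cases hx : x = ⊥
    · rw [hx, mul_comm, mul_bot', fb, mul_comm, mul_bot']
    by_cases hy : y = ⊥
    · rw [hy, mul_bot', fb, mul_bot']
    rw [fn _ hx, fn _ hy, fn _ (pi_mul_ne hA hx hy)]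
    exact congrArg Ext.of (gm ⟨x, hx⟩ ⟨y, hy⟩)
  · intro x y
    by_cases hx : x = ⊥
    · rw [hx, fb, imp_eq_one.2 bot_le, imp_eq_one.2 bot_le, fn _ h1]
      exact congrArg Ext.of gone
    by_cases hy : y = ⊥
    · rw [hy, pi_neg hA hx, fb, fn _ hx]; rfl
    rw [fn _ hx, fn _ hy, fn _ (imp_ne hy)]
    exact congrArg Ext.of (gi ⟨x, hx⟩ ⟨y, hy⟩)
  · intro x y hxy
    by_cases hx : x = ⊥
    · rw [hx, fb]; exact bot_le
    have hy : y ≠ ⊥ := fun hy => hx (le_bot_iff.1 (hy ▸ hxy))
    rw [fn _ hx, fn _ hy]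
    exact Ext.of_le.2 (gle ⟨x, hx⟩ ⟨y, hy⟩ hxy)

end Positive

theorem scc_Pi : SCC.{u} PiMTL := by
  let ι : Type u := ULift.{u} {φ : Form // ¬ Provable PiMTL φ}
  have hex : ∀ i : ι, ∃ (A : Type) (_ : MTLAlgebra A), IsChainOf PiMTL A ∧ ¬ Taut A i.down.1 :=
    fun i => exists_countermodel i.down.2
  choose A alg hA hn using hex
  have h1 : ∀ i, (1 : A i) ≠ ⊥ := by
    intro i h
    refine hn i fun v => le_antisymm (le_one' _) ?_
    rw [h]; exact bot_le
  obtain ⟨lo, wf⟩ := exists_wellFoundedLT ι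
  refine ⟨Ext (Lex (∀ i, PosPart (A i) (hA i) (h1 i))), Ext.alg, Ext.chain_Pi, fun φ =>
    ⟨sound Ext.chain_Pi, fun ht => ?_⟩⟩
  by_contra hφ
  let i : ι := ⟨⟨φ, hφ⟩⟩
  let P : ι → Type := fun i => PosPart (A i) (hA i) (h1 i)
  refine hn i (taut_of_emb (Q := Lex (∀ i, P i)) (hA i) (h1 i) (emb (P := P) i) ?_ ?_ ?_ ?_ ht)
  · exact emb_mul (P := P) i
  · exact emb_im (P := P) i
  · exact fun _ _ h => emb_mono (P := P) i h
  · exact fun _ h => emb_eq_one (P := P) i h

end Pool.Agent.P.MP_339e98_lc
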